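import Mathlib
import Pool.Agent.Helper18.GPL.Main

/-!
# The spectrum of the deviation of powers from uniform distribution modulo one

Koksma's theorem says that for almost every `x > 1` the powers of `x` are uniformly distributed modulo one. The theorem `result`
gives the size of the set of the `x` for which the deviation from uniform distribution has a prescribed size `δ > 0`, measured
in one of three gauges: discrepancy, means of a function, exponential sums.

Let `1 < a < b` and let `δ` be small. The set of the `x ∈ (a, b)` for which the discrepancy of the first `N` powers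
`x, x ^ 2, ..., x ^ N` modulo one tends to `δ`, and the set of those for which its upper limit is at least `δ`, have the
Hausdorff dimension `1 - (I(δ) + r) / log b`, `|r| ≤ exp (-c / √δ)`, where `I(δ)` is the large deviation rate of the discrepancy of
independent uniform random variables. The same holds for the means of a Lipschitz function, with `|r| ≤ exp (-c / δ)`, and for the
means of a trigonometric polynomial and for exponential sums, with `|r| ≤ exp (-exp (c / δ))`; for the sequences `x ^ n + s n`,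
uniformly in `s` and in the interval.

The lower bounds come from `prescribed_laws`: the set of the `x` for which the powers have a prescribed law `g(t) dt` modulo one
has exactly the dimension `1 - (∫ g log g) / log b`, for all positive trigonometric polynomials `g` of degree at most `H` near one.
-/

set_option autoImplicit false

namespace Pool.Agent.Helper18.Draft.PowerSpectrum

open MeasureTheory Filter Topology Set

/-- discrepancy modulo one of the first `N` terms of a sequence -/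
noncomputable def disc (u : ℕ → ℝ) (N : ℕ) : ℝ :=
  sSup {r : ℝ | ∃ α β : ℝ, 0 ≤ α ∧ α < β ∧ β ≤ 1 ∧ r =
    |(((Finset.range N).filter (fun n => α ≤ Int.fract (u n) ∧ Int.fract (u n) < β)).card : ℝ) / N - (β - α)|}

/-- relative entropy of the Bernoulli laws with the parameters `p` and `q` -/
noncomputable def kl (p q : ℝ) : ℝ := p * Real.log (p / q) + (1 - p) * Real.log ((1 - p) / (1 - q))

/-- rate of the large deviations of the discrepancy of independent uniform random variables -/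
noncomputable def rateD (δ : ℝ) : ℝ := sInf ((fun q => kl (q + δ) q) '' Ioo 0 (1 - δ))

/-- rate of the large deviations of the means of `φ (X n)`, with `X n` independent and uniform in `(0, 1)` -/
noncomputable def rateL (φ : ℝ → ℝ) (δ : ℝ) : ℝ :=
  ⨆ θ : ℝ, (θ * δ - Real.log (∫ t in (0 : ℝ)..1, Real.exp (θ * φ t)))

/-- the set of the `x ∈ (a, b)` with `lim F x = δ` and the set of those with `δ ≤ limsup F x` have Hausdorff dimension
`1 - r / log b`, up to `ε / log b` -/
def DimLevel (a b : ℝ) (F : ℝ → ℕ → ℝ) (δ r ε : ℝ) : Prop :=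
  ENNReal.ofReal (1 - (r + ε) / Real.log b) ≤ dimH {x | x ∈ Ioo a b ∧ Tendsto (F x) atTop (𝓝 δ)} ∧
  dimH {x | x ∈ Ioo a b ∧ δ ≤ limsup (F x) atTop} ≤ ENNReal.ofReal (1 - (r - ε) / Real.log b)

theorem result :
    (∀ a₀ : ℝ, 1 < a₀ →
      -- the discrepancy
      (∃ c δ₀ : ℝ, 0 < c ∧ 0 < δ₀ ∧ ∀ a b δ : ℝ, a₀ ≤ a → a < b → 0 < δ → δ ≤ δ₀ → ∀ s : ℕ → ℝ,
        DimLevel a b (fun x N => disc (fun n => x ^ (n + 1) + s n) N) δ (rateD δ) (Real.exp (-(c / √δ)))) ∧
      -- the means of a Lipschitz function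
      (∀ (φ : ℝ → ℝ) (K : ℝ), (∀ t, φ (t + 1) = φ t) → (∀ s t, |φ s - φ t| ≤ K * |s - t|) →
        ∫ t in (0:ℝ)..1, φ t = 0 → (∃ t, φ t ≠ 0) →
        ∃ c δ₀ : ℝ, 0 < c ∧ 0 < δ₀ ∧ ∀ a b δ : ℝ, a₀ ≤ a → a < b → 0 < δ → δ ≤ δ₀ → ∀ s : ℕ → ℝ,
          DimLevel a b (fun x N => (∑ n ∈ Finset.range N, φ (x ^ (n + 1) + s n)) / N) δ (rateL φ δ)
            (Real.exp (-(c / δ)))) ∧
      -- the means of a trigonometric polynomial
      (∀ (φ : ℝ → ℝ) (S : Finset ℤ) (z : ℤ → ℂ), 0 ∉ S →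
        (∀ t : ℝ, (φ t : ℂ) = ∑ h ∈ S, z h * Complex.exp (2 * Real.pi * Complex.I * (h * t : ℝ))) → (∃ t, φ t ≠ 0) →
        ∃ c δ₀ : ℝ, 0 < c ∧ 0 < δ₀ ∧ ∀ a b δ : ℝ, a₀ ≤ a → a < b → 0 < δ → δ ≤ δ₀ → ∀ s : ℕ → ℝ,
          DimLevel a b (fun x N => (∑ n ∈ Finset.range N, φ (x ^ (n + 1) + s n)) / N) δ (rateL φ δ)
            (Real.exp (-Real.exp (c / δ)))) ∧
      -- exponential sums
      (∀ m : ℕ, 1 ≤ m →
        ∃ c δ₀ : ℝ, 0 < c ∧ 0 < δ₀ ∧ ∀ a b δ : ℝ, a₀ ≤ a → a < b → 0 < δ → δ ≤ δ₀ → ∀ s : ℕ → ℝ,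
          DimLevel a b (fun x N => ‖∑ n ∈ Finset.range N, Complex.exp (2 * Real.pi * Complex.I *
            ((m * (x ^ (n + 1) + s n) : ℝ) : ℂ))‖ / N) δ (rateL (fun t => Real.cos (2 * Real.pi * t)) δ)
            (Real.exp (-Real.exp (c / δ))))) ∧
    -- the rate of the discrepancy
    (∀ δ : ℝ, 0 < δ → δ ≤ 1 / 8 → |rateD δ - (2 * δ ^ 2 + 4 / 9 * δ ^ 4)| ≤ 16384 * δ ^ 6) :=
  ⟨fun a₀ ha => ⟨(Pool.Agent.Helper18.GPL.main3.1 a₀ ha).1, (Pool.Agent.Helper18.GPL.main3.1 a₀ ha).2.1,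
    (Pool.Agent.Helper18.GPL.main3.1 a₀ ha).2.2.1, (Pool.Agent.Helper18.GPL.main3.1 a₀ ha).2.2.2.1⟩,
    Pool.Agent.Helper18.GPL.main3.2⟩

/-! ### Prescribed laws -/

/-- The law of `u 0, u 1, ...` modulo one is `g(t) dt`. -/
def HasLaw (u : ℕ → ℝ) (g : ℝ → ℝ) : Prop :=
  ∀ α β : ℝ, 0 ≤ α → α ≤ β → β ≤ 1 →
    Tendsto (fun N : ℕ => (((Finset.range N).filter
      (fun n => α ≤ Int.fract (u n) ∧ Int.fract (u n) < β)).card : ℝ) / N) atTop
      (𝓝 (∫ t in α..β, g t))

open scoped Classical in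
/-- Modulo one, the terms of `u` behave like independent random variables with the law `g(t) dt`:
the joint law of `r` consecutive terms is the product law, for every `r`. -/
def Independent (u : ℕ → ℝ) (g : ℝ → ℝ) : Prop :=
  ∀ (r : ℕ) (α β : Fin r → ℝ), (∀ i, 0 ≤ α i ∧ α i ≤ β i ∧ β i ≤ 1) →
    Tendsto (fun N : ℕ => (((Finset.range N).filter
      (fun n => ∀ i : Fin r, α i ≤ Int.fract (u (n + i)) ∧ Int.fract (u (n + i)) < β i)).card : ℝ) / N)
      atTop (𝓝 (∏ i, ∫ t in (α i)..(β i), g t))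

/-- For a positive trigonometric polynomial `g` of degree at most `H`, mean one and coefficients `G k`, `∑ |G k| < a ^ κ`, where
`κ > 0` depends on `a₀ ≤ a` and on `H`, the set of the `x ∈ (a, b)` for which `x ^ n + s n` has the law `g(t) dt` modulo one, and
the subset of those for which the terms behave like independent random variables with this law, have exactly the dimension
`1 - (∫ g log g) / log b`. -/
theorem prescribed_laws (a₀ : ℝ) (ha₀ : 1 < a₀) (H : ℕ) (hH : 1 ≤ H) : ∃ κ : ℝ, 0 < κ ∧ ∀ (G : ℤ → ℂ) (g : ℝ → ℝ),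
    (∀ t : ℝ, (g t : ℂ) = ∑ k ∈ Finset.Icc (-(H : ℤ)) H, G k * Complex.exp (2 * Real.pi * Complex.I * (k * t : ℝ))) →
    G 0 = 1 → (∀ t : ℝ, 0 < g t) → ∀ a b : ℝ, a₀ ≤ a → a < b → ∑ k ∈ Finset.Icc (-(H : ℤ)) H, ‖G k‖ < a ^ κ →
    ∀ s : ℕ → ℝ, (∫ t in (0 : ℝ)..1, g t * Real.log (g t)) < Real.log b ∧
      dimH {x | x ∈ Ioo a b ∧ HasLaw (fun n => x ^ (n + 1) + s n) g} =
        ENNReal.ofReal (1 - (∫ t in (0 : ℝ)..1, g t * Real.log (g t)) / Real.log b) ∧
      dimH {x | x ∈ Ioo a b ∧ Independent (fun n => x ^ (n + 1) + s n) g} =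
        ENNReal.ofReal (1 - (∫ t in (0 : ℝ)..1, g t * Real.log (g t)) / Real.log b) :=
  Pool.Agent.Helper18.GPL.laws ha₀ H hH

end Pool.Agent.Helper18.Draft.PowerSpectrum
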